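import Mathlib

/-!
# The amiable semigroups avoiding `F` do not form a quasivariety

We construct finite amiable semigroups `Sg n` containing two idempotents whose alternating
products of length at most `n` are pairwise distinct.  Each `Sg n` is finite and hence avoids the
infinite semigroup `F`, but their direct product contains a copy of `F`.
-/

namespace Pool.Agent.Results.MP_e1ef61_al.NotQuasivariety

/-! ### Definitions -/

/-- `x 𝓛* y`: for all `a, b ∈ S¹`, `x a = x b ↔ y a = y b`.  (The second clause is the case in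
which one of `a, b` is the adjoined identity.) -/
def LStar {S : Type} [Semigroup S] (x y : S) : Prop :=
  (∀ a b : S, x * a = x * b ↔ y * a = y * b) ∧ (∀ a : S, x * a = x ↔ y * a = y)

/-- `x 𝓡* y`: for all `a, b ∈ S¹`, `a x = b x ↔ a y = b y`. -/
def RStar {S : Type} [Semigroup S] (x y : S) : Prop :=
  (∀ a b : S, a * x = b * x ↔ a * y = b * y) ∧ (∀ a : S, a * x = x ↔ a * y = y)

/-- `S` is amiable: every `𝓛*`-class and every `𝓡*`-class contains exactly one idempotent. -/
def IsAmiable (S : Type) [Semigroup S] : Prop :=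
  (∀ x : S, ∃! e : S, e * e = e ∧ LStar x e) ∧ (∀ x : S, ∃! e : S, e * e = e ∧ RStar x e)

/-- `(S, ·, l, r)` is an amiable semigroup regarded as an algebra of type `⟨2, 1, 1⟩`: `l x` is
the unique idempotent `𝓛*`-related to `x` and `r x` the unique idempotent `𝓡*`-related to `x`. -/
def IsAmiableAlgebra (S : Type) [Semigroup S] (l r : S → S) : Prop :=
  IsAmiable S ∧ (∀ x, l x * l x = l x ∧ LStar x (l x)) ∧ (∀ x, r x * r x = r x ∧ RStar x (r x))

/-- The defining relations `a² = a`, `b² = b` on the free semigroup on two letters. -/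
inductive FRel : FreeSemigroup Bool → FreeSemigroup Bool → Prop
  | idem (x : Bool) : FRel (FreeSemigroup.of x * FreeSemigroup.of x) (FreeSemigroup.of x)

/-- The semigroup `F = ⟨a, b | a² = a, b² = b⟩`. -/
abbrev F : Type := (conGen FRel).Quotient

/-- `S` avoids `F`: no subsemigroup of `S` is isomorphic to `F`, i.e. there is no injective
semigroup homomorphism `F → S`. -/
def AvoidsF (S : Type) [Semigroup S] : Prop :=
  ∀ f : F →ₙ* S, ¬ Function.Injective f

/-- Terms in the signature `(·, l, r)`. -/
inductive ATerm : Type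
  | var : ℕ → ATerm
  | mul : ATerm → ATerm → ATerm
  | l : ATerm → ATerm
  | r : ATerm → ATerm

/-- The value of a term under an assignment. -/
def ATerm.eval {S : Type} [Semigroup S] (l r : S → S) (v : ℕ → S) : ATerm → S
  | ATerm.var n => v n
  | ATerm.mul s t => s.eval l r v * t.eval l r v
  | ATerm.l s => l (s.eval l r v)
  | ATerm.r s => r (s.eval l r v)

/-- A quasi-identity `(s₁ = t₁ ∧ … ∧ sₖ = tₖ) ⇒ s = t`. -/
structure QuasiIdentity where
  /-- the premises -/
  prem : List (ATerm × ATerm)
  /-- the conclusion -/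
  concl : ATerm × ATerm

/-- The quasi-identity `q` holds in `(S, ·, l, r)`. -/
def QuasiIdentity.Holds (q : QuasiIdentity) (S : Type) [Semigroup S] (l r : S → S) : Prop :=
  ∀ v : ℕ → S, (∀ e ∈ q.prem, e.1.eval l r v = e.2.eval l r v) →
    q.concl.1.eval l r v = q.concl.2.eval l r v

/-! ### The finite semigroups -/

/-- A triple `(l, h, m)`, standing for the formal sum of the intervals `[i, i + m]` where
`l ≤ i ≤ h` and `i` has the parity of `l`. -/
@[ext]
structure Seg (n : ℕ) where
  /-- first starting position -/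
  l : ℤ
  /-- last starting position -/
  h : ℤ
  /-- length -/
  m : ℤ
  h1 : 1 ≤ l
  h2 : l ≤ h
  h3 : h + m ≤ 2 * n + 2
  h4 : 0 ≤ m
  h5 : (h - l) % 2 = 0

/-- The semigroup: segments and a zero. -/
inductive Sg (n : ℕ) : Type
  | zero : Sg n
  | seg : Seg n → Sg n

open Sg

/-- product of two segments -/
def segMul {n : ℕ} (x y : Seg n) : Sg n :=
  if h : max x.l (y.l - x.m - (x.l + x.m + y.l) % 2) ≤
      min x.h (y.h - x.m - (x.l + x.m + y.l) % 2) then
    seg
      { l := max x.l (y.l - x.m - (x.l + x.m + y.l) % 2)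
        h := min x.h (y.h - x.m - (x.l + x.m + y.l) % 2)
        m := x.m + y.m + (x.l + x.m + y.l) % 2
        h1 := by have := x.h1; omega
        h2 := h
        h3 := by have := y.h3; have := x.h3; omega
        h4 := by have := y.h4; have := x.h4; omega
        h5 := by have := y.h5; have := x.h5; omega }
  else zero

/-- product -/
def sgMul {n : ℕ} : Sg n → Sg n → Sg n
  | seg x, seg y => segMul x y
  | seg _, zero => zero
  | zero, _ => zero

theorem segMul_eq_seg {n : ℕ} (x y z : Seg n) : segMul x y = seg z ↔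
    (z.l = max x.l (y.l - x.m - (x.l + x.m + y.l) % 2) ∧
      z.h = min x.h (y.h - x.m - (x.l + x.m + y.l) % 2) ∧
      z.m = x.m + y.m + (x.l + x.m + y.l) % 2) := by
  unfold segMul
  split_ifs with h
  · constructor
    · intro h'
      injection h' with h'
      subst h'
      exact ⟨rfl, rfl, rfl⟩
    · rintro ⟨h1, h2, h3⟩
      refine congrArg seg ?_
      ext
      · exact h1.symm
      · exact h2.symm
      · exact h3.symm
  · constructor
    · intro h'; exact absurd h' (by simp)
    · rintro ⟨h1, h2, h3⟩
      exfalso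
      apply h
      rw [← h1, ← h2]
      exact z.h2

theorem segMul_eq_zero {n : ℕ} (x y : Seg n) : segMul x y = zero ↔
    min x.h (y.h - x.m - (x.l + x.m + y.l) % 2) <
      max x.l (y.l - x.m - (x.l + x.m + y.l) % 2) := by
  unfold segMul
  split_ifs with h
  · simp only [false_iff, not_lt]; exact h
  · simp only [true_iff]; exact not_le.1 h

theorem segMul_cases {n : ℕ} (x y : Seg n) : segMul x y = zero ∨ ∃ z, segMul x y = seg z := by
  rcases segMul x y with _ | z
  · exact Or.inl rfl
  · exact Or.inr ⟨z, rfl⟩

theorem parity_l {n : ℕ} {x y z : Seg n} (h : segMul x y = seg z) : (z.l - x.l) % 2 = 0 := by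
  rw [segMul_eq_seg] at h
  obtain ⟨h1, _, _⟩ := h
  omega

theorem par_aux (a b c d e : ℤ) (h : (e - a) % 2 = 0) :
    (e + (b + c + (a + b + d) % 2) ) % 2 = (d + c) % 2 := by
  omega

theorem max_aux (a b c m1 m2 d1 d2 : ℤ) : max (max a (b - m1 - d1)) (c - (m1 + m2 + d1) - d2) =
    max a (max b (c - m2 - d2) - m1 - d1) := by
  omega

theorem min_aux (a b c m1 m2 d1 d2 : ℤ) : min (min a (b - m1 - d1)) (c - (m1 + m2 + d1) - d2) =
    min a (min b (c - m2 - d2) - m1 - d1) := by
  omega

theorem sg_assoc {n : ℕ} (x y z : Sg n) : sgMul (sgMul x y) z = sgMul x (sgMul y z) := by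
  rcases x with _ | x
  · rfl
  rcases y with _ | y
  · rfl
  rcases z with _ | z
  · show sgMul (segMul x y) zero = zero
    rcases segMul x y with _ | w <;> rfl
  show sgMul (segMul x y) (seg z) = sgMul (seg x) (segMul y z)
  have hx2 := x.h2
  have hy2 := y.h2
  have hz2 := z.h2
  rcases segMul_cases x y with hxy | ⟨w, hxy⟩
  · rcases segMul_cases y z with hyz | ⟨u, hyz⟩
    · rw [hxy, hyz]; rfl
    · have pu := parity_l hyz
      rw [hxy, hyz]
      show zero = segMul x u
      symm
      rw [segMul_eq_zero] at hxy ⊢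
      rw [segMul_eq_seg] at hyz
      obtain ⟨a1, a2, a3⟩ := hyz
      have e : (x.l + x.m + u.l) % 2 = (x.l + x.m + y.l) % 2 := by omega
      rw [e]
      omega
  · have pw := parity_l hxy
    rcases segMul_cases y z with hyz | ⟨u, hyz⟩
    · rw [hxy, hyz]
      show segMul w z = zero
      rw [segMul_eq_zero] at hyz ⊢
      rw [segMul_eq_seg] at hxy
      obtain ⟨a1, a2, a3⟩ := hxy
      have e : (w.l + w.m + z.l) % 2 = (y.l + y.m + z.l) % 2 := by rw [a3]; omega
      rw [e]
      omega
    · have pu := parity_l hyz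
      rw [hxy, hyz]
      show segMul w z = segMul x u
      rw [segMul_eq_seg] at hxy hyz
      obtain ⟨a1, a2, a3⟩ := hxy
      obtain ⟨b1, b2, b3⟩ := hyz
      have e1 : (x.l + x.m + u.l) % 2 = (x.l + x.m + y.l) % 2 := by omega
      have e2 : (w.l + w.m + z.l) % 2 = (y.l + y.m + z.l) % 2 := by rw [a3]; omega
      generalize (x.l + x.m + y.l) % 2 = d1 at *
      generalize (y.l + y.m + z.l) % 2 = d2 at *
      rcases segMul_cases w z with hwz | ⟨t, hwz⟩
      · rw [hwz]
        symm
        rw [segMul_eq_zero] at hwz ⊢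
        rw [e2, a1, a2, a3, max_aux, min_aux] at hwz
        rw [e1, b1, b2]
        exact hwz
      · rw [hwz]
        symm
        rw [segMul_eq_seg] at hwz ⊢
        rw [e2] at hwz
        rw [e1]
        obtain ⟨c1, c2, c3⟩ := hwz
        refine ⟨?_, ?_, ?_⟩
        · rw [c1, b1, a1, a3, max_aux]
        · rw [c2, b2, a2, a3, min_aux]
        · rw [c3, b3, a3]; ring

instance {n : ℕ} : Semigroup (Sg n) where
  mul := sgMul
  mul_assoc := sg_assoc

theorem mul_seg {n : ℕ} (x y : Seg n) : (seg x * seg y : Sg n) = segMul x y :=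
  rfl

theorem mul_zero' {n : ℕ} (x : Sg n) : x * zero = zero := by
  rcases x with _ | x <;> rfl

theorem zero_mul' {n : ℕ} (x : Sg n) : zero * x = zero := rfl

/-- the idempotent `x_ℓ` -/
def segL {n : ℕ} (x : Seg n) : Seg n where
  l := x.l + x.m
  h := x.h + x.m
  m := 0
  h1 := by have := x.h1; have := x.h4; omega
  h2 := by have := x.h2; omega
  h3 := by have := x.h3; omega
  h4 := le_rfl
  h5 := by have := x.h5; omega

/-- the idempotent `x_r` -/
def segR {n : ℕ} (x : Seg n) : Seg n where
  l := x.l
  h := x.h
  m := 0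
  h1 := x.h1
  h2 := x.h2
  h3 := by have := x.h3; have := x.h4; omega
  h4 := le_rfl
  h5 := x.h5

/-- the operation `ℓ` -/
def opL {n : ℕ} : Sg n → Sg n
  | seg x => seg (segL x)
  | zero => zero

/-- the operation `r` -/
def opR {n : ℕ} : Sg n → Sg n
  | seg x => seg (segR x)
  | zero => zero

theorem idem_iff {n : ℕ} (x : Seg n) : segMul x x = seg x ↔ x.m = 0 := by
  rw [segMul_eq_seg]
  have h4 := x.h4
  constructor
  · rintro ⟨_, _, h3⟩
    omega
  · intro h
    refine ⟨?_, ?_, ?_⟩ <;> omega

theorem zero_ne_seg {n : ℕ} {x : Seg n} (h : (zero : Sg n) = seg x) : False := by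
  cases h

theorem seg_inj {n : ℕ} {x y : Seg n} (h : seg x = seg y) : x = y := by
  injection h

/-- Left multiplications by `x` and `x_ℓ` have the same kernel. -/
theorem lstar_opL {n : ℕ} (x : Sg n) : LStar x (opL x) := by
  rcases x with _ | x
  · exact ⟨fun a b => Iff.rfl, fun a => Iff.rfl⟩
  have key : ∀ y : Seg n, ∀ z : Seg n, segMul x y = seg z →
      ∃ w : Seg n, segMul (segL x) y = seg w ∧ w.l = z.l + x.m ∧ w.h = z.h + x.m ∧
        w.m = z.m - x.m := by
    intro y z hz
    rw [segMul_eq_seg] at hz
    obtain ⟨c1, c2, c3⟩ := hz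
    have hz2 := z.h2
    have e : (x.l + x.m + 0 + y.l) % 2 = (x.l + x.m + y.l) % 2 := by omega
    rcases segMul_cases (segL x) y with hw | ⟨w, hw⟩
    · exfalso
      rw [segMul_eq_zero] at hw
      simp only [segL] at hw
      rw [e] at hw
      omega
    · refine ⟨w, hw, ?_⟩
      rw [segMul_eq_seg] at hw
      simp only [segL] at hw
      obtain ⟨d1, d2, d3⟩ := hw
      rw [e] at d1 d2 d3
      refine ⟨?_, ?_, ?_⟩ <;> omega
  have key0 : ∀ y : Seg n, segMul x y = zero → segMul (segL x) y = zero := by
    intro y hy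
    rw [segMul_eq_zero] at hy ⊢
    simp only [segL]
    have e : (x.l + x.m + 0 + y.l) % 2 = (x.l + x.m + y.l) % 2 := by omega
    rw [e]
    omega
  have key1 : ∀ y : Seg n, segMul (segL x) y = zero → segMul x y = zero := by
    intro y hy
    rcases segMul_cases x y with h | ⟨z, h⟩
    · exact h
    · obtain ⟨w, hw, _⟩ := key y z h
      rw [hy] at hw
      exact (zero_ne_seg hw).elim
  refine ⟨?_, ?_⟩
  · intro a b
    rcases a with _ | a
    · rcases b with _ | b
      · exact ⟨fun _ => rfl, fun _ => rfl⟩
      · show zero = segMul x b ↔ zero = segMul (segL x) b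
        exact ⟨fun h => (key0 b h.symm).symm, fun h => (key1 b h.symm).symm⟩
    · rcases b with _ | b
      · show segMul x a = zero ↔ segMul (segL x) a = zero
        exact ⟨fun h => key0 a h, fun h => key1 a h⟩
      · show segMul x a = segMul x b ↔ segMul (segL x) a = segMul (segL x) b
        rcases segMul_cases x a with ha | ⟨z, ha⟩
        · rw [key0 a ha, ha]
          exact ⟨fun h => (key0 b h.symm).symm, fun h => (key1 b h.symm).symm⟩
        · obtain ⟨w, hw, e1, e2, e3⟩ := key a z ha
          rcases segMul_cases x b with hb | ⟨z', hb⟩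
          · rw [key0 b hb, hb, ha, hw]
            exact ⟨fun h => (zero_ne_seg h.symm).elim, fun h => (zero_ne_seg h.symm).elim⟩
          · obtain ⟨w', hw', e1', e2', e3'⟩ := key b z' hb
            rw [ha, hw, hb, hw']
            constructor
            · intro h
              have h := seg_inj h
              subst h
              refine congrArg seg ?_
              ext <;> omega
            · intro h
              have h := seg_inj h
              subst h
              refine congrArg seg ?_
              ext <;> omega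
  · intro a
    rcases a with _ | a
    · show zero = seg x ↔ zero = seg (segL x)
      exact ⟨fun h => (zero_ne_seg h).elim, fun h => (zero_ne_seg h).elim⟩
    · show segMul x a = seg x ↔ segMul (segL x) a = seg (segL x)
      rw [segMul_eq_seg, segMul_eq_seg]
      simp only [segL]
      have e : (x.l + x.m + 0 + a.l) % 2 = (x.l + x.m + a.l) % 2 := by omega
      rw [e]
      constructor
      · rintro ⟨h1, h2, h3⟩
        refine ⟨?_, ?_, ?_⟩ <;> omega
      · rintro ⟨h1, h2, h3⟩
        refine ⟨?_, ?_, ?_⟩ <;> omega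

/-- Right multiplications by `x` and `x_r` have the same kernel. -/
theorem rstar_opR {n : ℕ} (x : Sg n) : RStar x (opR x) := by
  rcases x with _ | x
  · refine ⟨fun a b => Iff.rfl, fun a => Iff.rfl⟩
  have key : ∀ y : Seg n, ∀ z : Seg n, segMul y x = seg z →
      ∃ w : Seg n, segMul y (segR x) = seg w ∧ w.l = z.l ∧ w.h = z.h ∧
        w.m = z.m - x.m := by
    intro y z hz
    rw [segMul_eq_seg] at hz
    obtain ⟨c1, c2, c3⟩ := hz
    have hz2 := z.h2
    rcases segMul_cases y (segR x) with hw | ⟨w, hw⟩
    · exfalso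
      rw [segMul_eq_zero] at hw
      simp only [segR] at hw
      omega
    · refine ⟨w, hw, ?_⟩
      rw [segMul_eq_seg] at hw
      simp only [segR] at hw
      obtain ⟨d1, d2, d3⟩ := hw
      refine ⟨?_, ?_, ?_⟩ <;> omega
  have key0 : ∀ y : Seg n, segMul y x = zero → segMul y (segR x) = zero := by
    intro y hy
    rw [segMul_eq_zero] at hy ⊢
    simp only [segR]
    omega
  have key1 : ∀ y : Seg n, segMul y (segR x) = zero → segMul y x = zero := by
    intro y hy
    rcases segMul_cases y x with h | ⟨z, h⟩
    · exact h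
    · obtain ⟨w, hw, _⟩ := key y z h
      rw [hy] at hw
      exact (zero_ne_seg hw).elim
  refine ⟨?_, ?_⟩
  · intro a b
    rcases a with _ | a
    · rcases b with _ | b
      · exact ⟨fun _ => rfl, fun _ => rfl⟩
      · show zero = segMul b x ↔ zero = segMul b (segR x)
        exact ⟨fun h => (key0 b h.symm).symm, fun h => (key1 b h.symm).symm⟩
    · rcases b with _ | b
      · show segMul a x = zero ↔ segMul a (segR x) = zero
        exact ⟨fun h => key0 a h, fun h => key1 a h⟩
      · show segMul a x = segMul b x ↔ segMul a (segR x) = segMul b (segR x)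
        rcases segMul_cases a x with ha | ⟨z, ha⟩
        · rw [key0 a ha, ha]
          exact ⟨fun h => (key0 b h.symm).symm, fun h => (key1 b h.symm).symm⟩
        · obtain ⟨w, hw, e1, e2, e3⟩ := key a z ha
          rcases segMul_cases b x with hb | ⟨z', hb⟩
          · rw [key0 b hb, hb, ha, hw]
            exact ⟨fun h => (zero_ne_seg h.symm).elim, fun h => (zero_ne_seg h.symm).elim⟩
          · obtain ⟨w', hw', e1', e2', e3'⟩ := key b z' hb
            rw [ha, hw, hb, hw']
            constructor
            · intro h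
              have h := seg_inj h
              subst h
              refine congrArg seg ?_
              ext <;> omega
            · intro h
              have h := seg_inj h
              subst h
              refine congrArg seg ?_
              ext <;> omega
  · intro a
    rcases a with _ | a
    · show zero = seg x ↔ zero = seg (segR x)
      exact ⟨fun h => (zero_ne_seg h).elim, fun h => (zero_ne_seg h).elim⟩
    · show segMul a x = seg x ↔ segMul a (segR x) = seg (segR x)
      rw [segMul_eq_seg, segMul_eq_seg]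
      simp only [segR]
      have h1 := a.h4
      constructor
      · rintro ⟨h1, h2, h3⟩
        refine ⟨?_, ?_, ?_⟩ <;> omega
      · rintro ⟨h1, h2, h3⟩
        refine ⟨?_, ?_, ?_⟩ <;> omega

theorem opL_idem {n : ℕ} (x : Sg n) : opL x * opL x = opL x := by
  rcases x with _ | x
  · rfl
  · exact (idem_iff (segL x)).2 rfl

theorem opR_idem {n : ℕ} (x : Sg n) : opR x * opR x = opR x := by
  rcases x with _ | x
  · rfl
  · exact (idem_iff (segR x)).2 rfl

theorem idem_unique {n : ℕ} (e f : Sg n) (he : e * e = e) (hf : f * f = f)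
    (h1 : e * f = e) (h2 : f * e = f) : e = f := by
  rcases e with _ | e
  · rw [mul_zero'] at h2; exact h2
  · rcases f with _ | f
    · rw [mul_zero'] at h1; exact h1.symm
    · have he' := (idem_iff e).1 he
      have hf' := (idem_iff f).1 hf
      obtain ⟨a1, a2, a3⟩ := (segMul_eq_seg e f e).1 h1
      obtain ⟨b1, b2, b3⟩ := (segMul_eq_seg f e f).1 h2
      refine congrArg seg ?_
      ext <;> omega

theorem idem_unique' {n : ℕ} (e f : Sg n) (he : e * e = e) (hf : f * f = f)
    (h1 : e * f = f) (h2 : f * e = e) : e = f := by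
  rcases e with _ | e
  · rw [zero_mul'] at h1; exact h1
  · rcases f with _ | f
    · rw [zero_mul'] at h2; exact h2.symm
    · have he' := (idem_iff e).1 he
      have hf' := (idem_iff f).1 hf
      obtain ⟨a1, a2, a3⟩ := (segMul_eq_seg e f f).1 h1
      obtain ⟨b1, b2, b3⟩ := (segMul_eq_seg f e e).1 h2
      refine congrArg seg ?_
      ext <;> omega

theorem LStar.symm {S : Type} [Semigroup S] {x y : S} (h : LStar x y) : LStar y x :=
  ⟨fun a b => (h.1 a b).symm, fun a => (h.2 a).symm⟩

theorem LStar.trans {S : Type} [Semigroup S] {x y z : S} (h : LStar x y) (h' : LStar y z) :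
    LStar x z :=
  ⟨fun a b => (h.1 a b).trans (h'.1 a b), fun a => (h.2 a).trans (h'.2 a)⟩

theorem RStar.symm {S : Type} [Semigroup S] {x y : S} (h : RStar x y) : RStar y x :=
  ⟨fun a b => (h.1 a b).symm, fun a => (h.2 a).symm⟩

theorem RStar.trans {S : Type} [Semigroup S] {x y z : S} (h : RStar x y) (h' : RStar y z) :
    RStar x z :=
  ⟨fun a b => (h.1 a b).trans (h'.1 a b), fun a => (h.2 a).trans (h'.2 a)⟩

theorem sg_amiable (n : ℕ) : IsAmiableAlgebra (Sg n) opL opR := by
  refine ⟨⟨?_, ?_⟩, fun x => ⟨opL_idem x, lstar_opL x⟩, fun x => ⟨opR_idem x, rstar_opR x⟩⟩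
  · intro x
    refine ⟨opL x, ⟨opL_idem x, lstar_opL x⟩, ?_⟩
    rintro f ⟨hf, hxf⟩
    have h : LStar (opL x) f := (lstar_opL x).symm.trans hxf
    refine (idem_unique (opL x) f (opL_idem x) hf ?_ ?_).symm
    · exact (h.2 f).2 hf
    · exact (h.2 (opL x)).1 (opL_idem x)
  · intro x
    refine ⟨opR x, ⟨opR_idem x, rstar_opR x⟩, ?_⟩
    rintro f ⟨hf, hxf⟩
    have h : RStar (opR x) f := (rstar_opR x).symm.trans hxf
    refine (idem_unique' (opR x) f (opR_idem x) hf ?_ ?_).symm
    · exact (h.2 (opR x)).1 (opR_idem x)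
    · exact (h.2 f).2 hf

instance {n : ℕ} : Finite (Seg n) := by
  let f : Seg n → (Set.Icc (0 : ℤ) (2 * n + 2)) × (Set.Icc (0 : ℤ) (2 * n + 2)) ×
      (Set.Icc (0 : ℤ) (2 * n + 2)) := fun x =>
    (⟨x.l, by have := x.h1; have := x.h2; have := x.h3; have := x.h4; constructor <;> omega⟩,
     ⟨x.h, by have := x.h1; have := x.h2; have := x.h3; have := x.h4; constructor <;> omega⟩,
     ⟨x.m, by have := x.h1; have := x.h2; have := x.h3; have := x.h4; constructor <;> omega⟩)
  apply Finite.of_injective f
  intro x y hxy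
  have h1 := congrArg (fun p => (p.1 : ℤ)) hxy
  have h2 := congrArg (fun p => (p.2.1 : ℤ)) hxy
  have h3 := congrArg (fun p => (p.2.2 : ℤ)) hxy
  exact Seg.ext h1 h2 h3

instance {n : ℕ} : Finite (Sg n) := by
  let f : Sg n → Option (Seg n) := fun x => match x with
    | zero => none
    | seg y => some y
  apply Finite.of_injective f
  intro x y hxy
  rcases x with _ | x <;> rcases y with _ | y
  · rfl
  · exact absurd hxy (by simp [f])
  · exact absurd hxy (by simp [f])
  · exact congrArg seg (Option.some.inj hxy)

/-! ### Alternating words -/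

/-- The alternating word starting with `s`, of length `k + 1`, evaluated at `g`. -/
def alt {S : Type} [Semigroup S] (g : Bool → S) : Bool → ℕ → S
  | s, 0 => g s
  | s, k + 1 => g s * alt g (!s) k

/-- the generators of `F` -/
def fg (x : Bool) : F := ((FreeSemigroup.of x : FreeSemigroup Bool) : F)

theorem fg_idem (x : Bool) : fg x * fg x = fg x := by
  have h : (conGen FRel) (FreeSemigroup.of x * FreeSemigroup.of x) (FreeSemigroup.of x) :=
    ConGen.Rel.of _ _ (FRel.idem x)
  exact (Con.eq _).2 h

/-- Every element of `F` is an alternating word. -/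
theorem exists_alt (w : F) : ∃ s k, w = alt fg s k := by
  induction w using Con.induction_on with
  | _ w =>
  induction w using FreeSemigroup.recOnMul with
  | ih1 x => exact ⟨x, 0, rfl⟩
  | ih2 x y hx hy =>
    obtain ⟨s, k, hs⟩ := hy
    have e : ((FreeSemigroup.of x * y : FreeSemigroup Bool) : F) = fg x * (y : F) := rfl
    rw [e, hs]
    by_cases hxs : x = s
    · subst hxs
      refine ⟨x, k, ?_⟩
      cases k with
      | zero => exact fg_idem x
      | succ k =>
        show _ * (_ * _) = _ * _
        rw [← mul_assoc, fg_idem]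
    · have : s = !x := by
        cases x <;> cases s <;> simp_all
      subst this
      exact ⟨x, k + 1, rfl⟩

theorem map_alt {S T : Type} [Semigroup S] [Semigroup T] (f : S →ₙ* T) (g : Bool → S) (s : Bool)
    (k : ℕ) : f (alt g s k) = alt (fun x => f (g x)) s k := by
  induction k generalizing s with
  | zero => rfl
  | succ k ih => simp only [alt, map_mul, ih]

/-- numerical value of a letter -/
def bv : Bool → ℤ
  | false => 0
  | true => 1

/-- The two idempotents of `Sg n`. -/
def gen (n : ℕ) (s : Bool) : Seg n where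
  l := bv s + 1
  h := 2 * n + 1 + bv s
  m := 0
  h1 := by cases s <;> simp [bv]
  h2 := by cases s <;> simp only [bv] <;> omega
  h3 := by cases s <;> simp only [bv] <;> omega
  h4 := le_rfl
  h5 := by cases s <;> simp only [bv] <;> omega

/-- The two idempotents of `Sg n`, as elements of `Sg n`. -/
def gens (n : ℕ) (s : Bool) : Sg n := seg (gen n s)

theorem gens_idem (n : ℕ) (s : Bool) : gens n s * gens n s = gens n s :=
  (idem_iff (gen n s)).2 rfl

theorem alt_gen (n : ℕ) (k : ℕ) (hk : k + 2 ≤ n) (s : Bool) :
    ∃ x : Seg n, alt (gens n) s k = seg x ∧ x.l = bv s + 1 ∧ x.m = k ∧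
      2 * n + 1 - k ≤ x.h := by
  induction k generalizing s with
  | zero =>
    refine ⟨gen n s, rfl, rfl, rfl, ?_⟩
    cases s <;> simp [gen, bv]
  | succ k ih =>
    obtain ⟨y, hy, hl, hm, hh⟩ := ih (by omega) (!s)
    simp only [alt]
    rw [hy]
    show ∃ x : Seg n, segMul (gen n s) y = seg x ∧ _
    rcases segMul_cases (gen n s) y with hx | ⟨x, hx⟩
    · exfalso
      rw [segMul_eq_zero] at hx
      simp only [gen] at hx
      rw [hl] at hx
      cases s
      · simp only [bv, Bool.not_false] at hx
        omega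
      · simp only [bv, Bool.not_true] at hx
        omega
    · refine ⟨x, hx, ?_⟩
      rw [segMul_eq_seg] at hx
      simp only [gen] at hx
      rw [hl, hm] at hx
      obtain ⟨a1, a2, a3⟩ := hx
      push_cast
      cases s
      · simp only [bv, Bool.not_false] at a1 a2 a3 ⊢
        refine ⟨?_, ?_, ?_⟩ <;> omega
      · simp only [bv, Bool.not_true] at a1 a2 a3 ⊢
        refine ⟨?_, ?_, ?_⟩ <;> omega

/-- The direct product of all `Sg n`. -/
abbrev P : Type := ∀ n : ℕ, Sg n

/-- The generators of the copy of `F` in `P`. -/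
def pg (s : Bool) : P := fun n => gens n s

/-- evaluation at a coordinate -/
def ev (n : ℕ) : P →ₙ* Sg n where
  toFun := fun x => x n
  map_mul' := fun _ _ => rfl

theorem alt_pg_injective (s t : Bool) (k j : ℕ) (h : alt pg s k = alt pg t j) : s = t ∧ k = j := by
  have h' : ev (k + j + 2) (alt pg s k) = ev (k + j + 2) (alt pg t j) := by rw [h]
  rw [map_alt, map_alt] at h'
  have e : (fun x => ev (k + j + 2) (pg x)) = gens (k + j + 2) := rfl
  rw [e] at h'
  obtain ⟨x, hx, hx1, hx2, _⟩ := alt_gen (k + j + 2) k (by omega) s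
  obtain ⟨y, hy, hy1, hy2, _⟩ := alt_gen (k + j + 2) j (by omega) t
  rw [hx, hy] at h'
  have h'' := seg_inj h'
  subst h''
  rw [hx1] at hy1
  rw [hx2] at hy2
  refine ⟨?_, by exact_mod_cast hy2⟩
  cases s <;> cases t <;> simp_all [bv]

theorem pg_idem (s : Bool) : pg s * pg s = pg s := funext fun n => gens_idem n s

/-- `FreeSemigroup.lift pg` respects the congruence defining `F`. -/
theorem lift_respects (x y : FreeSemigroup Bool) (h : (conGen FRel) x y) :
    FreeSemigroup.lift pg x = FreeSemigroup.lift pg y := by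
  have hle : conGen FRel ≤ Con.ker (FreeSemigroup.lift pg) := by
    rw [Con.conGen_le]
    rintro a b ⟨c⟩
    rw [Con.ker_rel, map_mul, FreeSemigroup.lift_of, pg_idem]
  exact hle h

/-- The homomorphism `F → P`. -/
def emb : F →ₙ* P where
  toFun := fun q => Con.liftOn q (FreeSemigroup.lift pg) lift_respects
  map_mul' := by
    intro x y
    induction x using Con.induction_on with
    | _ x =>
    induction y using Con.induction_on with
    | _ y => exact map_mul (FreeSemigroup.lift pg) x y

theorem emb_injective : Function.Injective emb := by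
  intro x y h
  obtain ⟨s, k, rfl⟩ := exists_alt x
  obtain ⟨t, j, rfl⟩ := exists_alt y
  rw [map_alt, map_alt] at h
  have e : (fun x => emb (fg x)) = pg := by
    funext x
    show FreeSemigroup.lift pg (FreeSemigroup.of x) = pg x
    rw [FreeSemigroup.lift_of]
  rw [e] at h
  obtain ⟨rfl, rfl⟩ := alt_pg_injective s t k j h
  rfl

theorem F_infinite : Infinite F := by
  apply Infinite.of_injective (fun k : ℕ => alt fg false k)
  intro k j h
  have h' : emb (alt fg false k) = emb (alt fg false j) := congrArg emb h
  rw [map_alt, map_alt] at h'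
  have e : (fun x => emb (fg x)) = pg := by
    funext x
    show FreeSemigroup.lift pg (FreeSemigroup.of x) = pg x
    rw [FreeSemigroup.lift_of]
  rw [e] at h'
  exact (alt_pg_injective _ _ k j h').2

theorem avoids_of_finite (S : Type) [Semigroup S] [Finite S] : AvoidsF S := by
  intro f hf
  have := F_infinite
  exact not_injective_infinite_finite f hf

/-- A term evaluates coordinatewise in the product. -/
theorem eval_prod (t : ATerm) (v : ℕ → P) (n : ℕ) :
    t.eval (fun x : P => (fun n => opL (x n) : P)) (fun x : P => (fun n => opR (x n) : P)) v n =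
      t.eval opL opR (fun i => v i n) := by
  induction t with
  | var i => rfl
  | mul s t hs ht =>
    simp only [ATerm.eval]
    rw [← hs, ← ht]
    rfl
  | l s hs => simp only [ATerm.eval]; rw [← hs]
  | r s hs => simp only [ATerm.eval]; rw [← hs]

/-- **Theorem.**  The class of amiable semigroups (as algebras of type `⟨2, 1, 1⟩`) that avoid
`F` is not axiomatised, among all algebras `(S, ·, l, r)` with `(S, ·)` a semigroup, by any set of
quasi-identities. -/
theorem result : ¬ ∃ Q : Set QuasiIdentity, ∀ (S : Type) [Semigroup S] (l r : S → S),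
    (∀ q ∈ Q, q.Holds S l r) ↔ (IsAmiableAlgebra S l r ∧ AvoidsF S) := by
  rintro ⟨Q, hQ⟩
  have h1 : ∀ n : ℕ, ∀ q ∈ Q, q.Holds (Sg n) opL opR := fun n =>
    (hQ (Sg n) opL opR).2 ⟨sg_amiable n, avoids_of_finite (Sg n)⟩
  have h2 : ∀ q ∈ Q, q.Holds P (fun x : P => (fun n => opL (x n) : P))
      (fun x : P => (fun n => opR (x n) : P)) := by
    intro q hq v hv
    funext n
    rw [eval_prod, eval_prod]
    apply h1 n q hq (fun i => v i n)
    intro e he
    rw [← eval_prod, ← eval_prod, hv e he]
  exact ((hQ P _ _).1 h2).2 emb emb_injective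

end Pool.Agent.Results.MP_e1ef61_al.NotQuasivariety
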